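import Mathlib

namespace Pool.Agent.H.MP_5335f7_al

theorem digits (N : ℕ) : ∀ c : ℕ → ℤ, (∀ j, |c j| ≤ 3) →
    (7 : ℤ) ^ N ∣ ∑ j ∈ Finset.range N, c j * 7 ^ j → ∀ j < N, c j = 0 := by
  induction N with
  | zero => intro c _ _ j hj; omega
  | succ N ih =>
    intro c hc h
    rw [Finset.sum_range_succ'] at h
    have h1 : ∑ j ∈ Finset.range N, c (j + 1) * 7 ^ (j + 1) =
        7 * ∑ j ∈ Finset.range N, c (j + 1) * 7 ^ j := by
      rw [Finset.mul_sum]; apply Finset.sum_congr rfl; intro j _; ring
    rw [h1, pow_zero, mul_one] at h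
    have h2 : (7 : ℤ) ∣ c 0 := by
      have := (dvd_pow_self (7 : ℤ) (Nat.succ_ne_zero N)).trans h
      exact (dvd_add_right (dvd_mul_right _ _)).1 this
    have h3 : c 0 = 0 := by
      have := abs_le.1 (hc 0)
      omega
    rw [h3, add_zero, pow_succ'] at h
    have h4 := ih (fun j => c (j + 1)) (fun j => hc _)
      ((mul_dvd_mul_iff_left (by norm_num)).1 h)
    intro j hj
    rcases j with _ | j
    · exact h3
    · exact h4 j (by omega)

theorem pos (J : Type) [Fintype J] : ∃ (p : J → ℤ) (L : ℤ), L ≠ 0 ∧
    (∀ α β, L ∣ p α - p β → α = β) ∧ (∀ α γ, ¬ L ∣ 2 * p α - p γ) ∧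
    (∀ γ α δ, ¬ L ∣ p γ - p α - p δ) ∧
    (∀ γ α δ β, α ≠ β → L ∣ (p γ - p α) - (p δ - p β) → γ = α) ∧
    (∀ γ α δ β, ¬ L ∣ (p γ - p α) - (p δ - 2 * p β)) ∧
    (∀ γ α δ β, α ≠ β → ¬ L ∣ (p γ - 2 * p α) - (p δ - 2 * p β)) := by
  classical
  let κ : J → ℕ := fun j => Fintype.equivFin J j
  have hκ : Function.Injective κ := fun a b h => (Fintype.equivFin J).injective (Fin.ext h)
  have hlt : ∀ j, κ j < Fintype.card J := fun j => (Fintype.equivFin J j).2
  have key : ∀ (γ β α δ : J) (u a b v : ℤ), 0 ≤ u → u ≤ 1 → 0 ≤ a → a ≤ 2 → 0 ≤ b → b ≤ 2 →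
      0 ≤ v → v ≤ 1 → (7 : ℤ) ^ Fintype.card J ∣
        u * 7 ^ κ γ + a * 7 ^ κ β - b * 7 ^ κ α - v * 7 ^ κ δ → ∀ j : J,
      (if j = γ then u else 0) + (if j = β then a else 0) =
        (if j = α then b else 0) + (if j = δ then v else 0) := by
    intro γ β α δ u a b v _ _ _ _ _ _ _ _ h j
    have := digits (Fintype.card J) (fun i => (if i = κ γ then u else 0) +
      (if i = κ β then a else 0) - (if i = κ α then b else 0) - (if i = κ δ then v else 0))
      (by intro i; rw [abs_le]; constructor <;> split_ifs <;> omega)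
      (by
        simp only [add_mul, sub_mul, Finset.sum_add_distrib, Finset.sum_sub_distrib, ite_mul,
          zero_mul, Finset.sum_ite_eq', Finset.mem_range, hlt, if_true]
        exact h) (κ j) (hlt j)
    simp only [hκ.eq_iff] at this
    linarith
  refine ⟨fun j => 7 ^ κ j, 7 ^ Fintype.card J, by positivity, ?_, ?_, ?_, ?_, ?_, ?_⟩
  · intro α β h
    have := key α α β β 1 0 0 1 (by omega) (by omega) (by omega) (by omega) (by omega) (by omega)
      (by omega) (by omega) (by simpa using h) α
    by_contra hne
    simp [hne] at this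
  · intro α γ h
    have := key α α γ γ 0 2 0 1 (by omega) (by omega) (by omega) (by omega) (by omega) (by omega)
      (by omega) (by omega) (by simpa using h) α
    simp only [if_true] at this
    split_ifs at this <;> omega
  · intro γ α δ h
    have h1 := key γ γ α δ 1 0 1 1 (by omega) (by omega) (by omega) (by omega) (by omega)
      (by omega) (by omega) (by omega) (by simpa using h)
    have h2 := h1 α
    have h3 := h1 δ
    simp only [if_true] at h2 h3
    by_cases h4 : α = γ
    · subst h4
      split_ifs at h3 <;> omega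
    · rw [if_neg h4] at h2
      split_ifs at h2 <;> omega
  · intro γ α δ β hne h
    have := key γ β α δ 1 1 1 1 (by omega) (by omega) (by omega) (by omega) (by omega) (by omega)
      (by omega) (by omega) (by convert h using 1; ring) α
    simp only [if_true, if_neg hne] at this
    by_contra hc
    rw [if_neg (Ne.symm hc)] at this
    split_ifs at this <;> omega
  · intro γ α δ β h
    have h1 := key γ β α δ 1 2 1 1 (by omega) (by omega) (by omega) (by omega) (by omega)
      (by omega) (by omega) (by omega) (by convert h using 1; ring)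
    have h2 := h1 β
    have h3 := h1 γ
    simp only [if_true] at h2 h3
    by_cases h4 : β = α
    · by_cases h5 : β = δ
      · subst h4; subst h5
        split_ifs at h3 <;> omega
      · rw [if_neg h5] at h2
        split_ifs at h2 <;> omega
    · rw [if_neg h4] at h2
      split_ifs at h2 <;> omega
  · intro γ α δ β hne h
    have := key γ β α δ 1 2 2 1 (by omega) (by omega) (by omega) (by omega) (by omega) (by omega)
      (by omega) (by omega) (by convert h using 1; ring) α
    simp only [if_true, if_neg hne] at this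
    split_ifs at this <;> omega

end Pool.Agent.H.MP_5335f7_al
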