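import Mathlib

namespace Pool.Agent.H.MP_5335f7_al

universe u v

@[ext] structure WP (D : Type u) (Q : Type v) where
  f : Q → D
  q : Q

variable {D : Type u} {Q : Type v} [Group D] [AddCommGroup Q]

instance : Mul (WP D Q) := ⟨fun a b => ⟨fun x => a.f x * b.f (x + a.q), a.q + b.q⟩⟩
instance : One (WP D Q) := ⟨⟨fun _ => 1, 0⟩⟩
instance : Inv (WP D Q) := ⟨fun a => ⟨fun x => (a.f (x - a.q))⁻¹, -a.q⟩⟩

@[simp] theorem mul_f (a b : WP D Q) (x : Q) : (a * b).f x = a.f x * b.f (x + a.q) := rfl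
@[simp] theorem mul_q (a b : WP D Q) : (a * b).q = a.q + b.q := rfl
@[simp] theorem one_f (x : Q) : (1 : WP D Q).f x = 1 := rfl
@[simp] theorem one_q : (1 : WP D Q).q = 0 := rfl
@[simp] theorem inv_f (a : WP D Q) (x : Q) : a⁻¹.f x = (a.f (x - a.q))⁻¹ := rfl
@[simp] theorem inv_q (a : WP D Q) : a⁻¹.q = -a.q := rfl

instance : Group (WP D Q) := Group.ofLeftAxioms
  (by
    intro a b c
    ext x
    · simp [mul_assoc, add_assoc]
    · simp [add_assoc])
  (by
    intro a
    ext x <;> simp)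
  (by
    intro a
    ext x
    · simp [sub_eq_add_neg]
    · simp)

def inB : (Q → D) →* WP D Q := MonoidHom.mk' (fun f => ⟨f, 0⟩) (by
  intro a b
  ext x <;> simp)

@[simp] theorem inB_f (f : Q → D) (x : Q) : (inB f : WP D Q).f x = f x := rfl
@[simp] theorem inB_q (f : Q → D) : (inB f : WP D Q).q = 0 := rfl

theorem inB_inj : Function.Injective (inB : (Q → D) →* WP D Q) :=
  fun _ _ h => congrArg WP.f h

def sh (q : Q) : WP D Q := ⟨fun _ => 1, q⟩

@[simp] theorem sh_f (q x : Q) : (sh q : WP D Q).f x = 1 := rfl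
@[simp] theorem sh_q (q : Q) : (sh q : WP D Q).q = q := rfl

theorem sh_add (q r : Q) : (sh (q + r) : WP D Q) = sh q * sh r := by
  ext x <;> simp

def lay (K : Subgroup D) : Subgroup (WP D Q) where
  carrier := {w | w.q = 0 ∧ ∀ x, w.f x ∈ K}
  one_mem' := ⟨rfl, fun _ => K.one_mem⟩
  mul_mem' := by
    rintro a b ⟨ha, ha'⟩ ⟨hb, hb'⟩
    exact ⟨by simp [ha, hb], fun x => K.mul_mem (ha' _) (hb' _)⟩
  inv_mem' := by
    rintro a ⟨ha, ha'⟩
    exact ⟨by simp [ha], fun x => K.inv_mem (ha' _)⟩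

theorem der_le (k : ℕ) : derivedSeries (WP D Q) (k + 1) ≤ lay (derivedSeries D k) := by
  induction k with
  | zero =>
    rw [derivedSeries_succ, Subgroup.commutator_le]
    intro a _ b _
    refine ⟨?_, fun x => trivial⟩
    simp [commutatorElement_def]
  | succ k ih =>
    rw [derivedSeries_succ, Subgroup.commutator_le]
    intro a ha b hb
    obtain ⟨ha1, ha2⟩ := ih ha
    obtain ⟨hb1, hb2⟩ := ih hb
    refine ⟨by simp [commutatorElement_def], fun x => ?_⟩
    have := Subgroup.commutator_mem_commutator (ha2 x) (hb2 x)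
    simpa [commutatorElement_def, ha1, hb1] using this

theorem der_bot (k : ℕ) (h : derivedSeries D k = ⊥) : derivedSeries (WP D Q) (k + 1) = ⊥ := by
  rw [eq_bot_iff]
  intro w hw
  obtain ⟨h1, h2⟩ := der_le k hw
  rw [h] at h2
  rw [Subgroup.mem_bot]
  ext x
  · simpa using h2 x
  · simpa using h1

theorem der_map {G H : Type*} [Group G] [Group H] (j : G →* H) (hj : ∀ g, j g ∈ commutator H)
    (k : ℕ) : (derivedSeries G k).map j ≤ derivedSeries H (k + 1) := by
  induction k with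
  | zero => rintro _ ⟨g, -, rfl⟩; exact hj g
  | succ k ih =>
    rw [derivedSeries_succ, Subgroup.map_commutator, derivedSeries_succ H (k + 1)]
    exact Subgroup.commutator_mono ih ih

theorem der_inj {G H : Type*} [Group G] [Group H] (j : G →* H) (hj : Function.Injective j)
    {k m : ℕ} (h : (derivedSeries G k).map j ≤ derivedSeries H m) (hm : derivedSeries H m = ⊥) :
    derivedSeries G k = ⊥ := by
  rw [hm, le_bot_iff] at h
  exact (Subgroup.map_eq_bot_iff_of_injective _ hj).1 h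

theorem solveZ (F : ℤ → D) : ∃ F' : ℤ → D, ∀ n, F' n * (F' (n + 1))⁻¹ = F n := by
  let P : ℕ → D := fun n => Nat.rec 1 (fun k r => (F k)⁻¹ * r) n
  let N : ℕ → D := fun n => Nat.rec 1 (fun k r => F (-(k + 1 : ℕ)) * r) n
  refine ⟨fun n => if 0 ≤ n then P n.toNat else N (-n).toNat, fun n => ?_⟩
  beta_reduce
  rcases lt_trichotomy n (-1) with h | rfl | h
  · obtain ⟨k, rfl⟩ : ∃ k : ℕ, n = -((k + 1 + 1 : ℕ) : ℤ) := ⟨(-n - 2).toNat, by omega⟩
    rw [if_neg (by omega), if_neg (by omega)]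
    have h1 : (-(-((k + 1 + 1 : ℕ) : ℤ))).toNat = k + 1 + 1 := by omega
    have h2 : (-(-((k + 1 + 1 : ℕ) : ℤ) + 1)).toNat = k + 1 := by omega
    rw [h1, h2]
    exact mul_inv_cancel_right _ _
  · rw [if_neg (by omega), if_pos (by omega)]
    simp [P, N]
  · obtain ⟨k, rfl⟩ : ∃ k : ℕ, n = k := ⟨n.toNat, by omega⟩
    rw [if_pos (by omega), if_pos (by omega)]
    have h1 : ((k : ℤ) + 1).toNat = k + 1 := by omega
    rw [h1, Int.toNat_natCast]
    show P k * ((F k)⁻¹ * P k)⁻¹ = F k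
    group

theorem solve (a : Q) (d : Q →+ ℤ) (hd : d a = 1) (f : Q → D) :
    ∃ f' : Q → D, ∀ x, f' x * (f' (x + a))⁻¹ = f x := by
  choose S hS using fun x0 : Q => solveZ (fun n : ℤ => f (x0 + n • a))
  refine ⟨fun x => S (x - d x • a) (d x), fun x => ?_⟩
  have h1 : x + a - d (x + a) • a = x - d x • a := by
    rw [map_add, hd, add_smul, one_smul]; abel
  simp only
  rw [h1, map_add, hd, hS]
  congr 1; abel

theorem A_ind {I : Type} [Fintype I] [DecidableEq I] (n : I → ℕ)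
    (S : AddSubgroup ((i : I) → ZMod (n i))) (h : ∀ i, Pi.single i 1 ∈ S) (a) : a ∈ S := by
  rw [← Finset.univ_sum_single a]
  apply S.sum_mem
  intro i _
  obtain ⟨k, hk⟩ := ZMod.intCast_surjective (a i)
  have : (Pi.single i (a i) : (i : I) → ZMod (n i)) = k • Pi.single i 1 := by
    rw [← Pi.single_smul, ← hk, zsmul_eq_mul, mul_one]
  rw [this]; exact S.zsmul_mem (h i) k

end Pool.Agent.H.MP_5335f7_al
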