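import Mathlib
import Pool.Agent.H.MP_5335f7_al.Pos
import Pool.Agent.H.MP_5335f7_al.WP

namespace Pool.Agent.H.MP_5335f7_al

universe u

theorem grid {Γ : Type u} [Group Γ] {I K : Type} [Fintype I] [DecidableEq I] [Fintype K]
    (n : I → ℕ) (m : ℕ) (i0 : I) (σ : ((i : I) → ZMod (n i)) → Γ)
    (hn : ∀ i, n i = 0 ∨ n i = m) (hi0 : n i0 = 0) (hσ : ∀ a b, σ (a + b) = σ a * σ b)
    (b : K → Γ) : ∃ t : ℤ × ℤ → Γ, ∀ N : Subgroup (ℤ × ℤ → Γ),
      (∀ i j : ℤ, (fun z : ℤ × ℤ => t (z.1 + i, z.2) * (t (z.1 + j, z.2))⁻¹) ∈ N) →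
      (∀ f ∈ N, (fun z : ℤ × ℤ => t z * f (z.1, z.2 + 1) * (t z)⁻¹) ∈ N) →
      ∃ ψ : ((i : I) → ZMod (n i)) → (ℤ × ℤ → Γ), (∀ a c, ψ (a + c) = ψ a * ψ c) ∧
        (∀ a, ψ a 0 = σ a) ∧ (∀ a, ψ a ∈ N) ∧ ∀ k, (fun z : ℤ × ℤ => if z = 0 then
          b k * σ (Pi.single i0 1) * (b k)⁻¹ * (σ (Pi.single i0 1))⁻¹ else 1) ∈ N := by
  classical
  obtain ⟨p, L, hL, h1, h2, h3, h4, h5, h6⟩ := pos (I ⊕ K)
  let σ' : Multiplicative ((i : I) → ZMod (n i)) →* Γ :=
    MonoidHom.mk' (fun a => σ a.toAdd) (fun a c => hσ _ _)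
  let a : I → Γ := fun i => σ (Pi.single i 1)
  have ha : ∀ i, a i ∈ σ'.range := fun i => ⟨Multiplicative.ofAdd (Pi.single i 1), rfl⟩
  have hcomm : ∀ g ∈ σ'.range, ∀ h ∈ σ'.range, Commute g h := by
    rintro _ ⟨g, rfl⟩ _ ⟨h, rfl⟩
    exact (Commute.all g h).map σ'
  have hpow : ∀ i, a i ^ n i = 1 := by
    intro i
    have : a i = σ' (Multiplicative.ofAdd (Pi.single i 1)) := rfl
    rw [this, ← map_pow, ← ofAdd_nsmul, ← Pi.single_smul]
    simp
  let lab : I ⊕ K → ℤ × ℤ → Γ := fun α z => match α with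
    | Sum.inl i => if z.2 = 0 ∧ (n i = 0 ∨ z.1 = p (Sum.inl i)) then a i else 1
    | Sum.inr k => if z.1 = p (Sum.inr k) then b k else 1
  let t : ℤ × ℤ → Γ := fun z => if h : ∃ α, L ∣ z.1 - p α then lab h.choose z else 1
  have ht1 : ∀ α x y, L ∣ x - p α → t (x, y) = lab α (x, y) := by
    intro α x y h
    have hex : ∃ α, L ∣ x - p α := ⟨α, h⟩
    have : hex.choose = α := by
      apply h1
      have := dvd_sub h hex.choose_spec
      exact (this).trans (dvd_of_eq (by ring))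
    simp only [t, dif_pos hex, this]
  have ht0 : ∀ x y, (∀ α, ¬ L ∣ x - p α) → t (x, y) = 1 := by
    intro x y h
    simp only [t, dif_neg (not_exists.2 h)]
  refine ⟨t, fun N hN1 hN2 => ?_⟩
  let e : I ⊕ K → ℤ × ℤ → Γ := fun α z => t (z.1 + p α, z.2) * (t (z.1 + 2 * p α, z.2))⁻¹
  have heN : ∀ α, e α ∈ N := fun α => hN1 _ _
  let supp : I ⊕ K → ℤ → Prop := fun α x =>
    ∃ γ, L ∣ x + p α - p γ ∨ L ∣ x + 2 * p α - p γ
  have he1 : ∀ α z, ¬ supp α z.1 → e α z = 1 := by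
    intro α z h
    simp only [supp, not_exists, not_or] at h
    simp only [e]
    rw [ht0 _ _ (fun γ => (h γ).1), ht0 _ _ (fun γ => (h γ).2)]; simp
  have he2 : ∀ α z, L ∣ z.1 → e α z = lab α (z.1 + p α, z.2) := by
    intro α z h
    simp only [e]
    rw [ht1 α _ _ (by simpa using h), ht0, inv_one, mul_one]
    intro γ hγ
    apply h2 α γ
    exact (dvd_sub hγ h).trans (dvd_of_eq (by ring))
  have hov : ∀ α β x, α ≠ β → supp α x → supp β x → L ∣ x := by
    rintro α β x hne ⟨γ, hγ | hγ⟩ ⟨δ, hδ | hδ⟩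
    · have := h4 γ α δ β hne (by exact (dvd_sub hδ hγ).trans (dvd_of_eq (by ring)))
      subst this
      simpa using hγ
    · exact absurd (by exact (dvd_sub hδ hγ).trans (dvd_of_eq (by ring))) (h5 γ α δ β)
    · exact absurd (by exact (dvd_sub hγ hδ).trans (dvd_of_eq (by ring))) (h5 δ β γ α)
    · exact absurd (by exact (dvd_sub hδ hγ).trans (dvd_of_eq (by ring))) (h6 γ α δ β hne)
  let v : I → ℤ × ℤ → Γ := fun i z =>
    t (z.1 + p (Sum.inl i), z.2) * (t (z.1 + (p (Sum.inl i) + L), z.2))⁻¹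
  let u : I → ℤ × ℤ → Γ := fun i z => v i z * (t z * v i (z.1, z.2 + 1) * (t z)⁻¹)⁻¹
  have huN : ∀ i, u i ∈ N := fun i => N.mul_mem (hN1 _ _) (N.inv_mem (hN2 _ (hN1 _ _)))
  have hu1 : ∀ i z, (∀ γ, ¬ L ∣ z.1 + p (Sum.inl i) - p γ) → u i z = 1 := by
    intro i z h
    have hv : ∀ y, v i (z.1, y) = 1 := by
      intro y
      simp only [v]
      rw [ht0 _ _ h, ht0]
      · simp
      · intro γ hγ
        apply h γ
        exact (dvd_sub hγ (dvd_refl L)).trans (dvd_of_eq (by ring))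
    simp only [u]
    rw [hv (z.2 + 1), show v i z = 1 from hv z.2]; simp
  have hu2 : ∀ i z γ, L ∣ z.1 + p (Sum.inl i) - p γ → u i z =
      lab γ (z.1 + p (Sum.inl i), z.2) * (lab γ (z.1 + (p (Sum.inl i) + L), z.2))⁻¹ *
      (lab γ (z.1 + p (Sum.inl i), z.2 + 1) *
        (lab γ (z.1 + (p (Sum.inl i) + L), z.2 + 1))⁻¹)⁻¹ := by
    intro i z γ h
    have h' : L ∣ z.1 + (p (Sum.inl i) + L) - p γ := by
      exact (dvd_add h (dvd_refl L)).trans (dvd_of_eq (by ring))
    have htz : t z = 1 := by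
      apply ht0 z.1 z.2
      intro δ hδ
      apply h3 γ (Sum.inl i) δ
      exact (dvd_sub hδ h).trans (dvd_of_eq (by ring))
    simp only [u, v]
    rw [htz, ht1 γ _ _ h, ht1 γ _ _ h, ht1 γ _ _ h', ht1 γ _ _ h']; simp
  have hu3 : ∀ i z, u i z ∈ σ'.range ∧ u i z ^ m = 1 := by
    intro i z
    by_cases h : ∃ γ, L ∣ z.1 + p (Sum.inl i) - p γ
    · obtain ⟨γ, h⟩ := h
      rw [hu2 i z γ h]
      rcases γ with j | k
      · by_cases hj : n j = 0
        · simp [lab, hj]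
        · have hm : n j = m := (hn j).resolve_left hj
          have hz : ∀ z, lab (Sum.inl j) z ∈ Subgroup.zpowers (a j) := by
            intro z
            simp only [lab]
            split_ifs
            · exact Subgroup.mem_zpowers _
            · exact Subgroup.one_mem _
          have := Subgroup.mul_mem _ (Subgroup.mul_mem _ (hz (z.1 + p (Sum.inl i), z.2))
            (Subgroup.inv_mem _ (hz (z.1 + (p (Sum.inl i) + L), z.2))))
            (Subgroup.inv_mem _ (Subgroup.mul_mem _ (hz (z.1 + p (Sum.inl i), z.2 + 1))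
            (Subgroup.inv_mem _ (hz (z.1 + (p (Sum.inl i) + L), z.2 + 1)))))
          refine ⟨(Subgroup.zpowers_le.2 (ha j)) this, ?_⟩
          obtain ⟨r, hr⟩ := Subgroup.mem_zpowers_iff.1 this
          rw [← hr, ← zpow_natCast, ← zpow_mul, mul_comm, zpow_mul, zpow_natCast, ← hm, hpow,
            one_zpow]
      · simp [lab]
    · rw [hu1 i z (not_exists.1 h)]; simp
  let w : I → ℤ × ℤ → Γ := fun i => if n i = 0 then e (Sum.inl i) else u i
  have hwN : ∀ i, w i ∈ N := by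
    intro i; simp only [w]; split_ifs
    · exact heN _
    · exact huN _
  have hw0 : ∀ i, w i 0 = a i := by
    intro i; simp only [w]; split_ifs with hi
    · rw [he2 _ _ (by simp)]; simp [lab, hi]
    · rw [hu2 i 0 (Sum.inl i) (by simp)]; simp [lab, hi, hL]
  have hwp : ∀ i, w i ^ n i = 1 := by
    intro i; simp only [w]; split_ifs with hi
    · rw [hi, pow_zero]
    · funext z
      rw [(hn i).resolve_left hi]; exact (hu3 i z).2
  have hw1 : ∀ i z, ¬ supp (Sum.inl i) z.1 → w i z = 1 := by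
    intro i z h; simp only [w]; split_ifs with hi
    · exact he1 _ _ h
    · exact hu1 i z fun γ hγ => h ⟨γ, Or.inl hγ⟩
  have hw2 : ∀ i z, L ∣ z.1 → w i z ∈ σ'.range := by
    intro i z h; simp only [w]; split_ifs with hi
    · rw [he2 _ _ h]; simp only [lab]
      split_ifs
      · exact ha i
      · exact Subgroup.one_mem _
    · exact (hu3 i z).1
  have hwc : ∀ i j, i ≠ j → Commute (w i) (w j) := by
    intro i j hij
    funext z
    change w i z * w j z = w j z * w i z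
    by_cases hi : supp (Sum.inl i) z.1
    · by_cases hj : supp (Sum.inl j) z.1
      · have := hov _ _ _ (fun h => hij (Sum.inl.inj h)) hi hj
        exact hcomm _ (hw2 i z this) _ (hw2 j z this)
      · rw [hw1 j z hj]; simp
    · rw [hw1 i z hi]; simp
  let φ : (i : I) → ZMod (n i) →+ Additive (ℤ × ℤ → Γ) := fun i =>
    ZMod.lift (n i) ⟨zmultiplesHom _ (Additive.ofMul (w i)), by
      simp only [zmultiplesHom_apply, natCast_zsmul]
      rw [← ofMul_pow, hwp]; rfl⟩
  have hφ : ∀ i (k : ℤ), φ i k = Additive.ofMul (w i ^ k) := by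
    intro i k
    simp only [φ, ZMod.lift_coe, zmultiplesHom_apply, ofMul_zpow]
  have hφc : Pairwise fun i j => ∀ x y, AddCommute (φ i x) (φ j y) := by
    intro i j hij x y
    obtain ⟨k, rfl⟩ := ZMod.intCast_surjective x
    obtain ⟨l, rfl⟩ := ZMod.intCast_surjective y
    rw [hφ, hφ]
    exact ((hwc i j hij).zpow_zpow k l).eq
  let Ψ := AddMonoidHom.noncommPiCoprod φ hφc
  have hΨ : ∀ i, Ψ (Pi.single i 1) = Additive.ofMul (w i) := by
    intro i
    have := hφ i 1
    rw [Int.cast_one, zpow_one] at this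
    rw [← this]
    exact AddMonoidHom.noncommPiCoprod_single φ i 1
  refine ⟨fun c => (Ψ c).toMul, fun c d => by simp only [map_add, toMul_add], ?_, ?_, ?_⟩
  · intro c
    let ev : Additive (ℤ × ℤ → Γ) →+ Additive Γ :=
      MonoidHom.toAdditive (Pi.evalMonoidHom (fun _ : ℤ × ℤ => Γ) 0)
    exact A_ind n (AddMonoidHom.eqLocus (ev.comp Ψ) (MonoidHom.toAdditiveRight σ'))
      (fun i => by
        change ev (Ψ (Pi.single i 1)) = _
        rw [hΨ]; exact hw0 i) c
  · intro c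
    exact A_ind n (N.toAddSubgroup.comap Ψ) (fun i => by
      change Ψ (Pi.single i 1) ∈ N.toAddSubgroup
      rw [hΨ]; exact hwN i) c
  · intro k
    have := N.mul_mem (N.mul_mem (N.mul_mem (heN (Sum.inr k)) (heN (Sum.inl i0)))
      (N.inv_mem (heN (Sum.inr k)))) (N.inv_mem (heN (Sum.inl i0)))
    convert this using 1
    funext z
    simp only [Pi.mul_apply, Pi.inv_apply]
    by_cases hz : L ∣ z.1
    · rw [he2 _ _ hz, he2 _ _ hz]
      obtain ⟨x, y⟩ := z
      by_cases hx : x = 0 <;> by_cases hy : y = 0 <;> simp [lab, hi0, hx, hy, a]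
    · rw [if_neg (by rintro rfl; simp at hz)]
      by_cases hi : supp (Sum.inl i0) z.1
      · rw [he1 (Sum.inr k) z (fun h => hz (hov _ _ _ (by simp) hi h))]; simp
      · rw [he1 _ z hi]; simp

end Pool.Agent.H.MP_5335f7_al
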