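import Mathlib
import Pool.Agent.H.MP_5335f7_al.WP

namespace Pool.Agent.H.MP_5335f7_al

universe u

theorem scale (a m : ℕ) (h : a ∣ m) (hm : m ≠ 0) :
    ∃ φ : ZMod a →+ ZMod m, Function.Injective φ := by
  obtain ⟨c, rfl⟩ := h
  have hc : (c : ℤ) ≠ 0 := by
    intro h; apply hm; rw [Int.natCast_eq_zero.1 h, mul_zero]
  refine ⟨ZMod.lift a ⟨(Int.castAddHom (ZMod (a * c))).comp (AddMonoidHom.mulRight (c : ℤ)), ?_⟩,
    ?_⟩
  · simp only [AddMonoidHom.comp_apply, AddMonoidHom.coe_mulRight, Int.coe_castAddHom]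
    rw [ZMod.intCast_zmod_eq_zero_iff_dvd]; push_cast; exact dvd_rfl
  · rw [ZMod.lift_injective]
    intro k hk
    simp only [AddMonoidHom.comp_apply, AddMonoidHom.coe_mulRight, Int.coe_castAddHom] at hk
    rw [ZMod.intCast_zmod_eq_zero_iff_dvd] at hk ⊢
    push_cast at hk
    exact (mul_dvd_mul_iff_right hc).1 hk

def nn (J K : Type) (m : ℕ) : Option (J ⊕ K) → ℕ
  | none => 0
  | some (Sum.inl _) => 0
  | some (Sum.inr _) => m

theorem ab (G : Type u) [Group G] [Group.FG G] : ∃ (I : Type) (_ : Fintype I) (_ : DecidableEq I)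
    (n : I → ℕ) (m : ℕ) (i0 : I) (π : G → (i : I) → ZMod (n i))
    (d : ((i : I) → ZMod (n i)) →+ ℤ), (∀ i, n i = 0 ∨ n i = m) ∧ n i0 = 0 ∧
    d (Pi.single i0 1) = 1 ∧ (∀ g h, π (g * h) = π g + π h) ∧
    ∀ g, π g = 0 → g ∈ commutator G := by
  classical
  haveI : Group.FG (Abelianization G) :=
    Group.fg_of_surjective (f := Abelianization.of) QuotientGroup.mk_surjective
  obtain ⟨K, J, _, _, p, hp, e, ⟨E⟩⟩ :=
    CommGroup.equiv_free_prod_prod_multiplicative_zmod (Abelianization G)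
  have hm : ∏ k, p k ^ e k ≠ 0 := Finset.prod_ne_zero_iff.2 fun k _ => pow_ne_zero _ (hp k).ne_zero
  choose φ hφ using fun k => scale (p k ^ e k) (∏ k, p k ^ e k)
    (Finset.dvd_prod_of_mem (fun k => p k ^ e k) (Finset.mem_univ k)) hm
  refine ⟨Option (J ⊕ K), inferInstance, inferInstance, nn J K (∏ k, p k ^ e k), ∏ k, p k ^ e k,
    none, fun g i => match i with
      | none => 0
      | some (Sum.inl j) => (Multiplicative.toAdd ((E (Abelianization.of g)).1 j) : ℤ)
      | some (Sum.inr k) => φ k (Multiplicative.toAdd ((E (Abelianization.of g)).2 k)),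
    Pi.evalAddMonoidHom (fun i => ZMod (nn J K (∏ k, p k ^ e k) i)) none, ?_, rfl, ?_, ?_, ?_⟩
  · rintro (_ | j | k)
    · exact Or.inl rfl
    · exact Or.inl rfl
    · exact Or.inr rfl
  · exact Pi.single_eq_same (M := fun i => ZMod (nn J K (∏ k, p k ^ e k) i)) none 1
  · intro g h
    funext i
    rcases i with _ | j | k
    · exact (add_zero _).symm
    · simp only [map_mul, Prod.fst_mul, Pi.mul_apply, toAdd_mul]; rfl
    · simp only [map_mul, Prod.snd_mul, Pi.mul_apply, toAdd_mul, map_add]; rfl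
  · intro g hg
    have h1 : E (Abelianization.of g) = 1 := by
      ext x
      · exact congrFun hg (some (Sum.inl x))
      · have := congrFun hg (some (Sum.inr x))
        exact hφ x (this.trans (map_zero _).symm)
    rw [map_eq_one_iff _ E.injective] at h1
    exact (QuotientGroup.eq_one_iff g).1 h1

theorem red (G : Type u) [Group G] [Group.FG G] (l : ℕ) (hl : derivedSeries G (l + 1) = ⊥) :
    ∃ (Γ : Type u) (_ : Group Γ) (I : Type) (_ : Fintype I) (_ : DecidableEq I)
    (n : I → ℕ) (m : ℕ) (i0 : I) (ι : G →* Γ) (π : G → (i : I) → ZMod (n i))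
    (σ : ((i : I) → ZMod (n i)) → Γ), derivedSeries Γ (l + 1) = ⊥ ∧
    (∀ i, n i = 0 ∨ n i = m) ∧ n i0 = 0 ∧ Function.Injective ι ∧
    (∀ g h, π (g * h) = π g + π h) ∧ (∀ a b, σ (a + b) = σ a * σ b) ∧
    ∀ g, ∃ b : Γ, ι g = b * σ (Pi.single i0 1) * b⁻¹ * (σ (Pi.single i0 1))⁻¹ * σ (π g) := by
  obtain ⟨I, _, _, n, m, i0, π, d, hn, hi0, hd, hπ, hker⟩ := ab G
  have hπ1 : π 1 = 0 := by
    have := hπ 1 1
    rw [mul_one] at this
    exact left_eq_add.1 this
  have hπi : ∀ g, π g⁻¹ = -π g := by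
    intro g
    have := hπ g g⁻¹
    rw [mul_inv_cancel, hπ1] at this
    exact eq_neg_of_add_eq_zero_right this.symm
  let R : AddSubgroup ((i : I) → ZMod (n i)) :=
    { carrier := Set.range π
      zero_mem' := ⟨1, hπ1⟩
      add_mem' := by rintro _ _ ⟨g, rfl⟩ ⟨h, rfl⟩; exact ⟨g * h, hπ g h⟩
      neg_mem' := by rintro _ ⟨g, rfl⟩; exact ⟨g⁻¹, hπi g⟩ }
  have hs : ∀ x : (i : I) → ZMod (n i), ∃ g,
      π g = -(QuotientAddGroup.mk x : _ ⧸ R).out + x := fun x =>
    QuotientAddGroup.eq.1 (QuotientAddGroup.out_eq' (QuotientAddGroup.mk x : _ ⧸ R))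
  choose s hs using hs
  have hmem : ∀ g x, s x * g * (s (x + π g))⁻¹ ∈ commutator G := by
    intro g x
    apply hker
    have h1 : (QuotientAddGroup.mk (x + π g) : _ ⧸ R) = QuotientAddGroup.mk x :=
      (QuotientAddGroup.eq.2 (show -x + (x + π g) ∈ Set.range π from ⟨g, by abel⟩)).symm
    rw [hπ, hπ, hπi, hs, hs, h1]; abel
  refine ⟨WP (commutator G) ((i : I) → ZMod (n i)), inferInstance, I, inferInstance,
    inferInstance, n, m, i0,
    MonoidHom.mk' (fun g => ⟨fun x => ⟨_, hmem g x⟩, π g⟩) ?_, π, sh, ?_, hn, hi0, ?_, hπ, sh_add,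
    ?_⟩
  · intro g h
    ext x
    · simp [hπ, mul_assoc, add_assoc]
    · simp [hπ]
  · apply der_bot
    exact der_inj (commutator G).subtype Subtype.val_injective
      (der_map _ (fun g => g.2) l) hl
  · rw [injective_iff_map_eq_one]
    intro g hg
    have h1 : π g = 0 := congrArg WP.q hg
    have h2 := congrArg Subtype.val (congrFun (congrArg WP.f hg) 0)
    simp only [MonoidHom.mk'_apply, h1, add_zero, one_f, OneMemClass.coe_one] at h2
    simpa using h2
  · intro g
    obtain ⟨f', hf'⟩ := solve (Pi.single i0 1) d hd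
      (fun x => (⟨_, hmem g x⟩ : commutator G))
    refine ⟨inB f', ?_⟩
    ext x
    · have := congrArg Subtype.val (hf' x)
      simpa using this.symm
    · simp

end Pool.Agent.H.MP_5335f7_al
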