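import Mathlib
import Pool.Agent.H.MP_5335f7_al.Grid
import Pool.Agent.H.MP_5335f7_al.Red

namespace Pool.Agent.H.MP_5335f7_al

universe u

theorem main (G : Type u) [Group G] [hG : Group.FG G] (l : ℕ)
    (hl : derivedSeries G (l + 1) = ⊥) :
    ∃ (H : Type u) (_ : Group H) (x y : H) (j : G →* H), Subgroup.closure {x, y} = ⊤ ∧
      derivedSeries H (l + 2) = ⊥ ∧ Function.Injective j ∧ ∀ g, j g ∈ commutator H := by
  classical
  obtain ⟨Γ, _, I, _, _, n, m, i0, ι, π, σ, hΓ, hn, hi0, hι, hπ, hσ, hb⟩ := red G l hl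
  choose b hb using hb
  obtain ⟨S, hS⟩ := hG.out
  obtain ⟨t, ht⟩ := grid n m i0 σ hn hi0 hσ (fun k : Fin S.card => b (S.equivFin.symm k))
  let X : WP Γ (ℤ × ℤ) := sh (1, 0)
  let Y : WP Γ (ℤ × ℤ) := ⟨t, (0, 1)⟩
  let H : Subgroup (WP Γ (ℤ × ℤ)) := Subgroup.closure {X, Y}
  have hX : X ∈ H := Subgroup.subset_closure (by simp)
  have hY : Y ∈ H := Subgroup.subset_closure (by simp)
  have hXi : ∀ i : ℤ, (sh (i, 0) : WP Γ (ℤ × ℤ)) ∈ H := by
    have h0 : (sh (0, 0) : WP Γ (ℤ × ℤ)) = 1 := rfl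
    intro i
    induction i using Int.induction_on with
    | zero => rw [h0]; exact H.one_mem
    | succ i ih =>
      have := H.mul_mem ih hX
      rw [← sh_add] at this
      simpa using this
    | pred i ih =>
      have h1 : (sh (-(i : ℤ) - 1, 0) : WP Γ (ℤ × ℤ)) = sh (-(i : ℤ), 0) * X⁻¹ := by
        rw [eq_mul_inv_iff_mul_eq, ← sh_add]; simp
      rw [h1]; exact H.mul_mem ih (H.inv_mem hX)
  obtain ⟨ψ, hψ, hψ0, hψN, hδ⟩ := ht ((⁅H, H⁆).comap inB)
    (by
      intro i j
      have := (⁅H, H⁆).mul_mem (Subgroup.commutator_mem_commutator (hXi i) hY)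
        ((⁅H, H⁆).inv_mem (Subgroup.commutator_mem_commutator (hXi j) hY))
      rw [Subgroup.mem_comap]
      convert this using 1
      ext z
      · have e1 : ∀ i : ℤ, z + (i, 0) = (z.1 + i, z.2) := fun i => by ext <;> simp
        simp [commutatorElement_def, Y, ← e1]
        congr 1; abel
      · simp [commutatorElement_def]
      · simp [commutatorElement_def])
    (by
      intro f hf
      rw [Subgroup.mem_comap] at hf ⊢
      have h1 : Y * inB f * Y⁻¹ ∈ ⁅H, H⁆ := by
        rw [← Subgroup.map_subtype_commutator] at hf ⊢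
        obtain ⟨w, hw, he⟩ := hf
        refine ⟨⟨Y, hY⟩ * w * ⟨Y, hY⟩⁻¹, (inferInstance : (commutator H).Normal).conj_mem w hw _,
          ?_⟩
        rw [← he]; rfl
      convert h1 using 1
      ext z
      · simp [Y]
        congr 1; ext <;> simp
      · simp [Y]
      · simp [Y])
  let Φ : G →* (ℤ × ℤ → Γ) := MonoidHom.mk' (fun g z => if z = 0 then ι g else ψ (π g) z) (by
    intro g h
    funext z
    by_cases hz : z = 0 <;> simp [hz, hπ, hψ])
  have hΦ : ∀ g, inB (Φ g) ∈ ⁅H, H⁆ := by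
    intro g
    have : (⊤ : Subgroup G) ≤ ((⁅H, H⁆).comap inB).comap Φ := by
      rw [← hS, Subgroup.closure_le]
      intro g hg
      have := Subgroup.mul_mem _ (hδ (S.equivFin ⟨g, hg⟩)) (hψN (π g))
      change Φ g ∈ (⁅H, H⁆).comap inB
      convert this using 1
      funext z
      by_cases hz : z = 0
      · simp [Φ, hz, hψ0, hb g]
      · simp [Φ, hz]
    exact this (Subgroup.mem_top g)
  refine ⟨H, inferInstance, ⟨X, hX⟩, ⟨Y, hY⟩,
    (inB.comp Φ).codRestrict H (fun g => H.commutator_le_self (hΦ g)), ?_, ?_, ?_, ?_⟩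
  · apply Subgroup.map_injective H.subtype_injective
    rw [MonoidHom.map_closure, ← MonoidHom.range_eq_map, Subgroup.range_subtype]
    simp [H, Set.image_pair]
  · exact der_inj H.subtype H.subtype_injective (map_derivedSeries_le_derivedSeries _ _)
      (der_bot _ hΓ)
  · intro g h e
    have h1 := congrFun (inB_inj (congrArg Subtype.val e)) 0
    apply hι
    simpa [Φ] using h1
  · intro g
    have := hΦ g
    rw [← Subgroup.map_subtype_commutator] at this
    obtain ⟨w, hw, he⟩ := this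
    have h1 : w = (inB.comp Φ).codRestrict H (fun g => H.commutator_le_self (hΦ g)) g :=
      Subtype.ext he
    exact h1 ▸ hw

end Pool.Agent.H.MP_5335f7_al
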